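import Pool.Agent.H60.CM.Basic

/-!
# Parametrizations near interior points
-/

set_option autoImplicit false

open Set Function MeasureTheory Filter Topology
open scoped Manifold ContDiff Matrix
open Pool.Agent.H60.CM

namespace Pool.Agent.H55.CM

theorem ee_expand (v : E2) : v = v 0 • ee 0 + v 1 • ee 1 := by
  ext i
  fin_cases i <;> simp [ee]

theorem ee_coord (a b : ℝ) : (a • ee 0 + b • ee 1 : E2) 0 = a ∧ (a • ee 0 + b • ee 1 : E2) 1 = b := by
  constructor <;> simp [ee]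

theorem det_ne {L : E2 →L[ℝ] E2} (hL : Injective L) :
    L (ee 0) 0 * L (ee 1) 1 - L (ee 0) 1 * L (ee 1) 0 ≠ 0 := by
  intro h
  set a := L (ee 0) 0
  set b := L (ee 0) 1
  set c := L (ee 1) 0
  set d := L (ee 1) 1
  have e0 : L (ee 0) = a • ee 0 + b • ee 1 := ee_expand _
  have e1 : L (ee 1) = c • ee 0 + d • ee 1 := ee_expand _
  have z1 : L (d • ee 0 + (-b) • ee 1) = 0 := by
    rw [map_add, map_smul, map_smul, e0, e1, smul_add, smul_add, smul_smul, smul_smul, smul_smul,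
      smul_smul]
    have h1 : (d * a) • ee 0 + (d * b) • ee 1 + ((-b * c) • ee 0 + (-b * d) • ee 1) =
        (a * d - b * c) • ee 0 + (0 : ℝ) • ee 1 := by
      module
    rw [h1, h]
    simp
  have z2 : L ((-c) • ee 0 + a • ee 1) = 0 := by
    rw [map_add, map_smul, map_smul, e0, e1, smul_add, smul_add, smul_smul, smul_smul, smul_smul,
      smul_smul]
    have h1 : (-c * a) • ee 0 + (-c * b) • ee 1 + ((a * c) • ee 0 + (a * d) • ee 1) =
        (0 : ℝ) • ee 0 + (a * d - b * c) • ee 1 := by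
      module
    rw [h1, h]
    simp
  have w1 : d • ee 0 + (-b) • ee 1 = (0 : E2) := hL (by rw [z1, map_zero])
  have w2 : (-c) • ee 0 + a • ee 1 = (0 : E2) := hL (by rw [z2, map_zero])
  have hb : -b = 0 := by
    rw [← (ee_coord d (-b)).2, w1]
    rfl
  have ha : a = 0 := by
    rw [← (ee_coord (-c) a).2, w2]
    rfl
  have e2 : L (ee 0) = 0 := by
    rw [e0, ha, neg_eq_zero.mp hb]
    simp
  have e3 : (ee 0 : E2) = 0 := hL (by rw [e2, map_zero])
  have e4 : (ee 0 : E2) 0 = 1 := by simp [ee]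
  rw [e3] at e4
  simp at e4

theorem cross_ne {A : E2 →L[ℝ] V3} {L : E2 →L[ℝ] E2} (hA : A (ee 0) ⨯₃ A (ee 1) ≠ 0)
    (hL : Injective L) : A (L (ee 0)) ⨯₃ A (L (ee 1)) ≠ 0 := by
  have hd := det_ne hL
  have e0 : L (ee 0) = L (ee 0) 0 • ee 0 + L (ee 0) 1 • ee 1 := ee_expand _
  have e1 : L (ee 1) = L (ee 1) 0 • ee 0 + L (ee 1) 1 • ee 1 := ee_expand _
  generalize L (ee 0) 0 = a at hd e0
  generalize L (ee 0) 1 = b at hd e0
  generalize L (ee 1) 0 = c at hd e1
  generalize L (ee 1) 1 = d at hd e1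
  rw [e0, e1]
  have h : A (a • ee 0 + b • ee 1) ⨯₃ A (c • ee 0 + d • ee 1) =
      (a * d - b * c) • (A (ee 0) ⨯₃ A (ee 1)) := by
    rw [A.map_add, A.map_add, A.map_smul, A.map_smul, A.map_smul, A.map_smul]
    generalize A (ee 0) = u
    generalize A (ee 1) = v
    rw [cross_apply, cross_apply]
    ext i
    fin_cases i <;> simp <;> ring
  rw [h]
  exact smul_ne_zero hd hA

theorem pf_PAT : T_PAT := by
  intro D p U hp hU hpU
  have hO1 : IsOpen ((extChartAt (𝓡∂ 2) p).target ∩ interior (range (𝓡∂ 2))) := by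
    rw [extChartAt_target, inter_assoc, inter_eq_right.mpr interior_subset]
    exact ((chartAt _ p).open_target.preimage (𝓡∂ 2).continuous_symm).inter isOpen_interior
  have hO2 : IsOpen (((extChartAt (𝓡∂ 2) p).target ∩ interior (range (𝓡∂ 2))) ∩
      (extChartAt (𝓡∂ 2) p).symm ⁻¹' U) :=
    ((continuousOn_extChartAt_symm p).mono inter_subset_left).isOpen_inter_preimage hO1 hU
  refine ⟨_, (extChartAt (𝓡∂ 2) p).symm, extChartAt (𝓡∂ 2) p p, ⟨hO2, ?_, ?_, ?_, ?_, ?_⟩,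
    ⟨⟨mem_extChartAt_target p, hp⟩, ?_⟩, extChartAt_to_inv p, ?_⟩
  · exact (contMDiffOn_extChartAt_symm p).mono fun y hy => hy.1.1
  · exact (extChartAt (𝓡∂ 2) p).symm.injOn.mono fun y hy => hy.1.1
  · intro V hV hVo
    have h1 : (extChartAt (𝓡∂ 2) p).symm '' V =
        (extChartAt (𝓡∂ 2) p).source ∩ extChartAt (𝓡∂ 2) p ⁻¹' V := by
      apply PartialEquiv.symm_image_eq_source_inter_preimage
      exact fun y hy => (hV hy).1.1
    rw [h1]
    exact (continuousOn_extChartAt p).isOpen_inter_preimage (isOpen_extChartAt_source p) hVo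
  · rintro q ⟨y, hy, rfl⟩
    have h1 : (extChartAt (𝓡∂ 2) p).symm y ∈ (chartAt (EuclideanHalfSpace 2) p).source := by
      rw [← extChartAt_source (𝓡∂ 2)]
      exact (extChartAt (𝓡∂ 2) p).map_target hy.1.1
    have h2 := ModelWithCorners.isInteriorPoint_iff_of_mem_atlas (I := 𝓡∂ 2) (n := ∞)
      (by simp) (chart_mem_atlas _ p) h1
    refine h2.2 ?_
    change extChartAt (𝓡∂ 2) p ((extChartAt (𝓡∂ 2) p).symm y) ∈
      interior (extChartAt (𝓡∂ 2) p).target
    rw [(extChartAt (𝓡∂ 2) p).right_inv hy.1.1]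
    exact interior_maximal inter_subset_left hO1 hy.1
  · intro y hy
    have hyt : y ∈ (extChartAt (𝓡∂ 2) p).target := hy.1.1
    have hr : range (𝓡∂ 2) ∈ 𝓝 y := mem_interior_iff_mem_nhds.mp hy.1.2
    have i1 : IsManifold (𝓡∂ 2) 1 D.S := IsManifold.of_le (m := 1) (n := ∞) (by simp)
    have hL := mfderiv_extChartAt_comp_mfderivWithin_extChartAt_symm (I := 𝓡∂ 2) hyt
    have hm : MDifferentiableAt 𝓘(ℝ, E2) (𝓡∂ 2) (extChartAt (𝓡∂ 2) p).symm y :=
      (mdifferentiableWithinAt_extChartAt_symm hyt).mdifferentiableAt hr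
    have hx : MDifferentiableAt (𝓡∂ 2) 𝓘(ℝ, V3) D.x ((extChartAt (𝓡∂ 2) p).symm y) :=
      (D.cmc.x_smooth _).mdifferentiableAt (by simp)
    have hc := mfderiv_comp y hx hm
    rw [mfderivWithin_of_mem_nhds hr] at hL
    have hi : Injective (mfderiv 𝓘(ℝ, E2) (𝓡∂ 2) (extChartAt (𝓡∂ 2) p).symm y) := by
      intro a b hab
      have h1 := congrArg (fun T => T a) hL
      have h2 := congrArg (fun T => T b) hL
      simp only [ContinuousLinearMap.comp_apply] at h1 h2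
      rw [hab, h2] at h1
      exact h1.symm
    have hp0 : ∀ i, pd (D.x ∘ (extChartAt (𝓡∂ 2) p).symm) y i =
        mfderiv (𝓡∂ 2) 𝓘(ℝ, V3) D.x ((extChartAt (𝓡∂ 2) p).symm y)
          (mfderiv 𝓘(ℝ, E2) (𝓡∂ 2) (extChartAt (𝓡∂ 2) p).symm y (ee i)) := by
      intro i
      unfold pd
      rw [← mfderiv_eq_fderiv, hc]
      rfl
    rw [hp0, hp0]
    exact cross_ne (A := mfderiv (𝓡∂ 2) 𝓘(ℝ, V3) D.x ((extChartAt (𝓡∂ 2) p).symm y))
      (L := mfderiv 𝓘(ℝ, E2) (𝓡∂ 2) (extChartAt (𝓡∂ 2) p).symm y) (D.cmc.imm _) hi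
  · change (extChartAt (𝓡∂ 2) p).symm (extChartAt (𝓡∂ 2) p p) ∈ U
    rw [extChartAt_to_inv]
    exact hpU
  · rintro q ⟨y, hy, rfl⟩
    exact hy.2

end Pool.Agent.H55.CM
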