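import Pool.Agent.H88.CM.Targets

/-!
# A finite atlas with a given chart
-/

set_option autoImplicit false

open Set Function Topology Metric Filter
open scoped Manifold
open Pool.Agent.H88.CL Pool.Agent.H88.CM

namespace Pool.Agent.H55.CM

theorem exists_pos_le {M : Type} (t : Finset M) (ρ : M → ℝ) (h : ∀ y, 0 < ρ y) :
    ∃ r : ℝ, 0 < r ∧ ∀ y ∈ t, r ≤ ρ y := by
  classical
  induction t using Finset.induction_on with
  | empty => exact ⟨1, one_pos, fun y hy => absurd hy (Finset.notMem_empty y)⟩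
  | insert a s _ ih =>
    obtain ⟨r, hr, hs⟩ := ih
    refine ⟨min r (ρ a), lt_min hr (h a), fun y hy => ?_⟩
    rcases Finset.mem_insert.1 hy with rfl | hy
    · exact min_le_right _ _
    · exact (min_le_left _ _).trans (hs y hy)

theorem pf_ATM : T_ATM := by
  intro d M _ _ _ _ _ κ K hκ hK hKt
  -- radii
  have h1 : ∀ y : M, ∃ ρ : ℝ, 0 < ρ ∧
      closedBall (chartAt (E d) y y) (2 * ρ) ⊆ (chartAt (E d) y).target := by
    intro y
    obtain ⟨ε, hε, hb⟩ := Metric.isOpen_iff.1 (chartAt (E d) y).open_target _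
      (mem_chart_target (E d) y)
    refine ⟨ε / 4, by positivity, (closedBall_subset_ball ?_).trans hb⟩
    linarith
  choose ρ hρ hball using h1
  have h2 : ∀ y : M, (chartAt (E d) y).source ∩
      (chartAt (E d) y) ⁻¹' ball (chartAt (E d) y y) (ρ y) ∈ 𝓝 y := by
    intro y
    apply IsOpen.mem_nhds
    · exact (chartAt (E d) y).continuousOn.isOpen_inter_preimage (chartAt (E d) y).open_source
        isOpen_ball
    · exact ⟨mem_chart_source (E d) y, mem_ball_self (hρ y)⟩
  obtain ⟨t, ht⟩ := CompactSpace.elim_nhds_subcover _ h2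
  obtain ⟨r, hr, hrt⟩ := exists_pos_le t ρ hρ
  let e := t.equivFin
  refine ⟨t.card + 1, Fin.cons κ (fun i => chartAt (E d) (e.symm i : M)),
    Fin.cons K (fun i => closedBall (chartAt (E d) (e.symm i : M) (e.symm i : M))
      (2 * ρ (e.symm i : M))), r, 0, ⟨?_, ?_, ?_, hr, ?_⟩, rfl, rfl⟩
  · intro i
    refine Fin.cases hκ (fun j => ?_) i
    exact IsManifold.chart_mem_maximalAtlas _
  · intro i
    refine Fin.cases hK (fun j => ?_) i
    exact isCompact_closedBall _ _
  · intro i
    refine Fin.cases hKt (fun j => ?_) i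
    exact hball _
  · intro z
    have hz : z ∈ ⋃ x ∈ t, (chartAt (E d) x).source ∩
        (chartAt (E d) x) ⁻¹' ball (chartAt (E d) x x) (ρ x) := by
      rw [ht]
      trivial
    rw [mem_iUnion₂] at hz
    obtain ⟨y, hy, hz1, hz2⟩ := hz
    refine ⟨(e ⟨y, hy⟩).succ, ?_, ?_⟩
    · rw [Fin.cons_succ, Equiv.symm_apply_apply]
      exact hz1
    · rw [Fin.cons_succ, Fin.cons_succ, Equiv.symm_apply_apply]
      apply closedBall_subset_closedBall'
      have h3 := hrt y hy
      have h4 : dist (chartAt (E d) y z) (chartAt (E d) y y) < ρ y := hz2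
      change r + dist (chartAt (E d) y z) (chartAt (E d) y y) ≤ 2 * ρ y
      linarith

end Pool.Agent.H55.CM
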